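import Pool.Agent.Y315.OP.Stm

/-!
# OP-MOL: mollification in L²
-/

set_option autoImplicit false

open MeasureTheory Filter Topology
open scoped ContDiff ENNReal Convolution

namespace Pool.Agent.Y930.OP

open Pool.Agent.Y315.OP hiding sq

section gen

variable {α : Type*} [MeasurableSpace α]

/-- Cauchy–Schwarz for functions with values in `ℝ≥0∞`. -/
theorem cs (μ : Measure α) {f g : α → ℝ≥0∞}
    (hf : AEMeasurable f μ) (hg : AEMeasurable g μ) :
    (∫⁻ a, f a * g a ∂μ) ≤ (∫⁻ a, f a ^ 2 ∂μ) ^ (1 / 2 : ℝ) * (∫⁻ a, g a ^ 2 ∂μ) ^ (1 / 2 : ℝ) := by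
  have h := ENNReal.lintegral_mul_le_Lp_mul_Lq μ Real.HolderConjugate.two_two hf hg
  simpa using h

theorem rpow_half_sq (x : ℝ≥0∞) : (x ^ (1 / 2 : ℝ)) ^ 2 = x := by
  rw [← ENNReal.rpow_natCast, ← ENNReal.rpow_mul]
  norm_num

/-- Jensen's inequality for the square. -/
theorem jensen (μ : Measure α) {w f : α → ℝ≥0∞}
    (hw : AEMeasurable w μ) (hf : AEMeasurable f μ) (h1 : ∫⁻ a, w a ∂μ ≤ 1) :
    (∫⁻ a, w a * f a ∂μ) ^ 2 ≤ ∫⁻ a, w a * f a ^ 2 ∂μ := by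
  have hw2 : AEMeasurable (fun a => w a ^ (1 / 2 : ℝ)) μ := hw.pow_const _
  have h := cs μ hw2 (hw2.mul hf)
  have e1 : ∀ a, w a ^ (1 / 2 : ℝ) * (w a ^ (1 / 2 : ℝ) * f a) = w a * f a := by
    intro a
    rw [← mul_assoc, ← pow_two, rpow_half_sq]
  have e2 : ∀ a, (w a ^ (1 / 2 : ℝ) * f a) ^ 2 = w a * f a ^ 2 := by
    intro a
    rw [mul_pow, rpow_half_sq]
  simp only [Pi.mul_apply, e1, e2, rpow_half_sq] at h
  calc (∫⁻ a, w a * f a ∂μ) ^ 2
      ≤ ((∫⁻ a, w a ∂μ) ^ (1 / 2 : ℝ) * (∫⁻ a, w a * f a ^ 2 ∂μ) ^ (1 / 2 : ℝ)) ^ 2 := by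
        gcongr
    _ = (∫⁻ a, w a ∂μ) * ∫⁻ a, w a * f a ^ 2 ∂μ := by
        rw [mul_pow, rpow_half_sq, rpow_half_sq]
    _ ≤ 1 * ∫⁻ a, w a * f a ^ 2 ∂μ := by gcongr
    _ = _ := one_mul _

/-- Jensen's inequality for vector valued integrals. -/
theorem jensen_vec {F : Type*} [NormedAddCommGroup F] [NormedSpace ℝ F] (μ : Measure α)
    {w : α → ℝ} {f : α → F} (hw : AEMeasurable (fun a => ‖w a‖ₑ) μ)
    (hf : AEMeasurable (fun a => ‖f a‖ₑ) μ) (h1 : ∫⁻ a, ‖w a‖ₑ ∂μ ≤ 1) :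
    ‖∫ a, w a • f a ∂μ‖ₑ ^ 2 ≤ ∫⁻ a, ‖w a‖ₑ * ‖f a‖ₑ ^ 2 ∂μ := by
  refine le_trans ?_ (jensen μ hw hf h1)
  gcongr
  refine (enorm_integral_le_lintegral_enorm _).trans (le_of_eq ?_)
  refine lintegral_congr fun a => ?_
  rw [enorm_smul]

end gen

variable {d : ℕ}

theorem moll_lint {r : ℝ} {χ : E d → ℝ} (h : Moll r χ) : ∫⁻ x, ‖χ x‖ₑ = 1 := by
  have hi : Integrable χ := h.tf.1.continuous.integrable_of_hasCompactSupport h.tf.2
  have h2 := ofReal_integral_eq_lintegral_ofReal hi (Eventually.of_forall h.nn)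
  rw [h.int, ENNReal.ofReal_one] at h2
  rw [h2]
  refine lintegral_congr fun x => ?_
  rw [Real.enorm_of_nonneg (h.nn x)]

theorem lint_sub_left (f : E d → ℝ≥0∞) (x : E d) : ∫⁻ y, f (x - y) = ∫⁻ y, f y :=
  lintegral_sub_left_eq_self f x

theorem lint_sub_right (f : E d → ℝ≥0∞) (y : E d) : ∫⁻ x, f (x - y) = ∫⁻ x, f x :=
  lintegral_sub_right_eq_self f y

/-- The mollification is a contraction of `L²`. -/
theorem contr {F : Type*} [NormedAddCommGroup F] [NormedSpace ℝ F] {r : ℝ} {χ : E d → ℝ}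
    (h : Moll r χ) {f : E d → F} (hf : AEStronglyMeasurable f volume) :
    ∫⁻ x, ‖∫ y, χ (x - y) • f y‖ₑ ^ 2 ≤ ∫⁻ y, ‖f y‖ₑ ^ 2 := by
  have hχ : Continuous χ := h.tf.1.continuous
  calc ∫⁻ x, ‖∫ y, χ (x - y) • f y‖ₑ ^ 2
      ≤ ∫⁻ x, ∫⁻ y, ‖χ (x - y)‖ₑ * ‖f y‖ₑ ^ 2 := by
        refine lintegral_mono fun x => ?_
        refine jensen_vec volume ?_ hf.enorm ?_
        · exact (hχ.comp (continuous_const.sub continuous_id)).enorm.measurable.aemeasurable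
        · rw [lint_sub_left (fun z => ‖χ z‖ₑ) x, moll_lint h]
    _ = ∫⁻ y, ∫⁻ x, ‖χ (x - y)‖ₑ * ‖f y‖ₑ ^ 2 := by
        refine lintegral_lintegral_swap ?_
        have m1 : AEMeasurable (fun z : E d × E d => ‖χ (z.1 - z.2)‖ₑ)
            (volume.prod volume) :=
          (hχ.comp (continuous_fst.sub continuous_snd)).enorm.measurable.aemeasurable
        have m2 : AEMeasurable (fun z : E d × E d => ‖f z.2‖ₑ ^ 2) (volume.prod volume) :=
          hf.comp_snd.enorm.pow_const 2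
        exact m1.mul m2
    _ = ∫⁻ y, ‖f y‖ₑ ^ 2 := by
        refine lintegral_congr fun y => ?_
        have m : Measurable (fun x : E d => ‖χ (x - y)‖ₑ) :=
          (hχ.comp (continuous_id.sub continuous_const)).enorm.measurable
        rw [lintegral_mul_const _ m]
        have e : ∫⁻ x, ‖χ (x - y)‖ₑ = 1 := by
          rw [lint_sub_right (fun z => ‖χ z‖ₑ) y, moll_lint h]
        exact (congrArg (· * ‖f y‖ₑ ^ 2) e).trans (one_mul _)

/-- the mollification as a convolution -/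
theorem mol_eq (χ u : E d → ℝ) :
    mol χ u = (u ⋆[ContinuousLinearMap.lsmul ℝ ℝ, volume] χ) := by
  funext x
  simp only [mol, convolution, ContinuousLinearMap.lsmul_apply, smul_eq_mul]
  refine integral_congr_ae (Eventually.of_forall fun y => ?_)
  exact mul_comm _ _

theorem loc (u : E d → ℝ) (hu : MemLp u 2) : LocallyIntegrable u :=
  hu.locallyIntegrable (by norm_num)

theorem mol_smooth {χ u : E d → ℝ} (hχ : TF χ) (hu : MemLp u 2) : ContDiff ℝ ∞ (mol χ u) := by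
  rw [mol_eq]
  exact hχ.2.contDiff_convolution_right (n := ⊤) _ (loc u hu) hχ.1

theorem mol_fderiv {χ u : E d → ℝ} (hχ : TF χ) (hu : MemLp u 2) (x v : E d) :
    fderiv ℝ (mol χ u) x v = ∫ y, u y * fderiv ℝ χ (x - y) v := by
  have hc : ContDiff ℝ 1 χ := hχ.1.of_le (by exact_mod_cast le_top)
  have h := hχ.2.hasFDerivAt_convolution_right (ContinuousLinearMap.lsmul ℝ ℝ) (loc u hu) hc x
  rw [mol_eq, h.fderiv]
  have hcd : Continuous (fderiv ℝ χ) := hc.continuous_fderiv one_ne_zero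
  have hint := (hχ.2.fderiv ℝ).convolutionExists_right
    ((ContinuousLinearMap.lsmul ℝ ℝ : ℝ →L[ℝ] ℝ →L[ℝ] ℝ).precompR (E d)) (loc u hu) hcd x
  rw [convolution, ContinuousLinearMap.integral_apply hint]
  refine integral_congr_ae (Eventually.of_forall fun y => ?_)
  simp [ContinuousLinearMap.precompR_apply]

theorem l2_lt_top {F : Type*} [NormedAddCommGroup F] {f : E d → F} (hf : MemLp f 2) :
    ∫⁻ x, ‖f x‖ₑ ^ 2 < ⊤ := by
  have h := lintegral_rpow_enorm_lt_top_of_eLpNorm_lt_top (by norm_num) (by norm_num) hf.2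
  simpa using h

theorem bnd {W : E d → ℝ≥0∞} (hW : Measurable W) {u : E d → ℝ} (hu : MemLp u 2) (x : E d)
    (a : E d → ℝ) (ha : ∀ y, ‖a y‖ₑ ≤ W (x - y)) :
    ‖∫ y, u y * a y‖ₑ ≤ (∫⁻ y, W y ^ 2) ^ (1 / 2 : ℝ) * (Y315.OP.sq u) ^ (1 / 2 : ℝ) := by
  have mW : Measurable (fun y : E d => W (x - y)) :=
    hW.comp (measurable_const.sub measurable_id)
  calc ‖∫ y, u y * a y‖ₑ ≤ ∫⁻ y, ‖u y * a y‖ₑ := enorm_integral_le_lintegral_enorm _
    _ ≤ ∫⁻ y, W (x - y) * ‖u y‖ₑ := by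
        refine lintegral_mono fun y => ?_
        rw [enorm_mul, mul_comm]
        gcongr
        exact ha y
    _ ≤ (∫⁻ y, W (x - y) ^ 2) ^ (1 / 2 : ℝ) * (∫⁻ y, ‖u y‖ₑ ^ 2) ^ (1 / 2 : ℝ) :=
        cs volume mW.aemeasurable hu.1.enorm
    _ = _ := by
        rw [lint_sub_left (fun z => W z ^ 2) x]
        rfl

theorem bnd_real {W : E d → ℝ≥0∞} (hW : Measurable W) (hW2 : ∫⁻ y, W y ^ 2 < ⊤)
    {u : E d → ℝ} (hu : MemLp u 2) (x : E d)
    (a : E d → ℝ) (ha : ∀ y, ‖a y‖ₑ ≤ W (x - y)) :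
    |∫ y, u y * a y| ≤ ((∫⁻ y, W y ^ 2) ^ (1 / 2 : ℝ)).toReal * (Y315.OP.sq u).toReal ^ (1 / 2 : ℝ) := by
  have h := bnd hW hu x a ha
  have hf : (∫⁻ y, W y ^ 2) ^ (1 / 2 : ℝ) * (Y315.OP.sq u) ^ (1 / 2 : ℝ) ≠ ⊤ :=
    ENNReal.mul_ne_top (ENNReal.rpow_ne_top_of_nonneg (by norm_num) hW2.ne)
      (ENNReal.rpow_ne_top_of_nonneg (by norm_num) (l2_lt_top hu).ne)
  have h2 := ENNReal.toReal_mono hf h
  rw [toReal_enorm, Real.norm_eq_abs, ENNReal.toReal_mul, ← ENNReal.toReal_rpow (Y315.OP.sq u)] at h2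
  exact h2

/-- the gradient of the mollification of a function with a weak gradient -/
theorem mol_grad {χ u : E d → ℝ} {g : E d → E d} (hχ : TF χ) (hu : MemLp u 2) (hg : MemLp g 2)
    (hw : WGrad u g) (x v : E d) :
    fderiv ℝ (mol χ u) x v = inner ℝ (molg χ g x) v := by
  rw [mol_fderiv hχ hu]
  have hs : ContDiff ℝ ∞ (fun y : E d => χ (x - y)) := hχ.1.comp (contDiff_const.sub contDiff_id)
  have hcs : HasCompactSupport (fun y : E d => χ (x - y)) :=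
    hχ.2.comp_homeomorph (Homeomorph.subLeft x)
  have h := hw (fun y => χ (x - y)) ⟨hs, hcs⟩ v
  have hd : ∀ y, fderiv ℝ (fun y : E d => χ (x - y)) y v = - fderiv ℝ χ (x - y) v := by
    intro y
    have h1 : HasFDerivAt χ (fderiv ℝ χ (x - y)) (x - y) :=
      (hχ.1.differentiable (by simp)).differentiableAt.hasFDerivAt
    have h2 := h1.comp y ((hasFDerivAt_const x y).sub (hasFDerivAt_id y))
    have h3 : HasFDerivAt (fun y : E d => χ (x - y))
        ((fderiv ℝ χ (x - y)).comp (0 - ContinuousLinearMap.id ℝ (E d))) y := h2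
    rw [h3.fderiv]
    simp
  simp only [hd, mul_neg, integral_neg, neg_inj] at h
  rw [h, molg, real_inner_comm, ← integral_inner]
  · refine integral_congr_ae (Eventually.of_forall fun y => ?_)
    simp only [inner_smul_right, real_inner_comm v]
    exact mul_comm _ _
  · have hl : LocallyIntegrable g := hg.locallyIntegrable (by norm_num)
    exact hl.integrable_smul_left_of_hasCompactSupport hs.continuous hcs

/-- **OP-MOL.** -/
theorem moli : S_MOL := by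
  intro d χ hχ
  have hχc : Continuous χ := hχ.1.continuous
  have hdc : Continuous (fderiv ℝ χ) := hχ.1.continuous_fderiv (by simp)
  have hχ2 : ∫⁻ y, ‖χ y‖ₑ ^ 2 < ⊤ := l2_lt_top (hχc.memLp_of_hasCompactSupport hχ.2)
  have hd2 : ∫⁻ y, ‖fderiv ℝ χ y‖ₑ ^ 2 < ⊤ :=
    l2_lt_top (hdc.memLp_of_hasCompactSupport (hχ.2.fderiv ℝ))
  set C1 := ((∫⁻ y, ‖χ y‖ₑ ^ 2) ^ (1 / 2 : ℝ)).toReal with hC1
  set C2 := ((∫⁻ y, ‖fderiv ℝ χ y‖ₑ ^ 2) ^ (1 / 2 : ℝ)).toReal with hC2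
  have h1 : 0 ≤ C1 := ENNReal.toReal_nonneg
  have h2 : 0 ≤ C2 := ENNReal.toReal_nonneg
  refine ⟨C1 + C2, add_nonneg h1 h2, fun u hu => ?_⟩
  have hsn : 0 ≤ (Y315.OP.sq u).toReal ^ (1 / 2 : ℝ) := Real.rpow_nonneg ENNReal.toReal_nonneg _
  have hsm := mol_smooth hχ hu
  refine ⟨hsm, ?_, ?_, fun g hg hw x v => mol_grad hχ hu hg hw x v, ?_, ?_⟩
  · intro x
    have h := bnd_real hχc.enorm.measurable hχ2 hu x (fun y => χ (x - y)) (fun y => le_rfl)
    have e : mol χ u x = ∫ y, u y * χ (x - y) := by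
      simp only [mol, mul_comm]
    rw [e]
    refine h.trans ?_
    gcongr
    linarith
  · intro x y
    have hder : ∀ z, ‖fderiv ℝ (mol χ u) z‖ ≤ (C1 + C2) * (Y315.OP.sq u).toReal ^ (1 / 2 : ℝ) := by
      intro z
      refine ContinuousLinearMap.opNorm_le_bound _ (by positivity) fun v => ?_
      rw [mol_fderiv hχ hu, Real.norm_eq_abs]
      have hm : Measurable (fun y : E d => ‖fderiv ℝ χ y‖ₑ * ‖v‖ₑ) :=
        hdc.enorm.measurable.mul_const _
      have hm2 : Measurable (fun y : E d => ‖fderiv ℝ χ y‖ₑ ^ 2) :=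
        hdc.enorm.measurable.pow_const _
      have e1 : ∫⁻ y, (‖fderiv ℝ χ y‖ₑ * ‖v‖ₑ) ^ 2
          = (∫⁻ y, ‖fderiv ℝ χ y‖ₑ ^ 2) * ‖v‖ₑ ^ 2 := by
        simp only [mul_pow]
        rw [lintegral_mul_const _ hm2]
      have hlt : ∫⁻ y, (‖fderiv ℝ χ y‖ₑ * ‖v‖ₑ) ^ 2 < ⊤ := by
        rw [e1]
        exact ENNReal.mul_lt_top hd2 (ENNReal.pow_lt_top enorm_lt_top)
      have h := bnd_real hm hlt hu z (fun y => fderiv ℝ χ (z - y) v) (fun y =>
        ContinuousLinearMap.le_opENorm _ _)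
      have e2 : ((‖v‖ₑ ^ 2) ^ (1 / 2 : ℝ)).toReal = ‖v‖ := by
        rw [← ENNReal.rpow_natCast, ← ENNReal.rpow_mul]
        norm_num
      rw [e1, ENNReal.mul_rpow_of_nonneg _ _ (by norm_num), ENNReal.toReal_mul, e2] at h
      refine h.trans ?_
      rw [← hC2]
      have : C2 * ‖v‖ * (Y315.OP.sq u).toReal ^ (1 / 2 : ℝ)
          = C2 * (Y315.OP.sq u).toReal ^ (1 / 2 : ℝ) * ‖v‖ := by ring
      rw [this]
      gcongr
      linarith
    have := Convex.norm_image_sub_le_of_norm_fderiv_le (𝕜 := ℝ) (f := mol χ u)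
      (C := (C1 + C2) * (Y315.OP.sq u).toReal ^ (1 / 2 : ℝ)) (s := Set.univ) (x := y) (y := x)
      (fun z _ => (hsm.differentiable (by simp)).differentiableAt) (fun z _ => hder z)
      convex_univ (Set.mem_univ _) (Set.mem_univ _)
    rw [Real.norm_eq_abs] at this
    exact this
  · intro r hr
    have h := contr hr (f := u) hu.1
    exact h
  · intro r g hr hg
    exact contr hr (f := g) hg.1

end Pool.Agent.Y930.OP
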